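import Pool.Agent.EngelMc.Asc

set_option autoImplicit false

universe u

namespace Pool.Agent.Results.MP_b9f959_al.RightEngelMc

open Subgroup Pool.Agent.EngelMc

/-- `comm x a` is the commutator `[a, x] = a⁻¹ x⁻¹ a x`. -/
def comm {G : Type u} [Group G] (x a : G) : G := a⁻¹ * x⁻¹ * a * x

/-- `G` is an `𝔐_c`-group: every subset `X` contains a finite subset `X₀` with the same
centralizer. -/
def IsMc (G : Type u) [Group G] : Prop :=
  ∀ X : Set G, ∃ X₀ : Set G, X₀ ⊆ X ∧ X₀.Finite ∧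
    Subgroup.centralizer X = Subgroup.centralizer X₀

/-- `R(G)`: the set of right Engel elements, i.e. of the `a` such that for every `x` there is
`n` with `[a, x, …, x] = 1` (`n` times). -/
def RightEngel (G : Type u) [Group G] : Set G := {a | ∀ x : G, ∃ n : ℕ, (comm x)^[n] a = 1}

/-- `H` is ascendant in `K`: there is an ordinal-indexed chain
`H = f 0 ⊴ f 1 ⊴ … ⊴ f α = K` with each term normal in the next one and with unions at limit
ordinals. -/
def IsAscendant {G : Type u} [Group G] (H K : Subgroup G) : Prop :=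
  ∃ (α : Ordinal.{u}) (f : Ordinal.{u} → Subgroup G), f 0 = H ∧ f α = K ∧
    (∀ β < α, f β ≤ f (β + 1) ∧ ((f β).subgroupOf (f (β + 1))).Normal) ∧
    (∀ l ≤ α, Order.IsSuccLimit l → (f l : Set G) = ⋃ β < l, (f β : Set G))

/-- `ϱ(G)`: the set of the `a` such that for every `x`, the cyclic subgroup `⟨x⟩` is ascendant in
`⟨x⟩⟨a⟩^G`, where `⟨a⟩^G` is the normal closure of `a`. -/
def rho (G : Type u) [Group G] : Set G :=
  {a | ∀ x : G, IsAscendant (zpowers x) (zpowers x ⊔ normalClosure {a})}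

variable {G : Type u} [Group G]

theorem mc_of_isMc (h : IsMc G) : MC G := by
  intro c hc
  obtain ⟨X₀, hX₀, hfin, hcen⟩ := h (⋃ n, c n)
  have h1 : ∀ s : Set G, s.Finite → s ⊆ ⋃ n, c n → ∃ N, centralizer (c N) ≤ centralizer s := by
    intro s hs
    induction s, hs using Set.Finite.induction_on with
    | empty =>
      intro _
      refine ⟨0, fun g _ => ?_⟩
      rw [mem_centralizer_iff]
      simp
    | @insert a s _ _ ih =>
      intro hsub
      obtain ⟨N, hN⟩ := ih ((Set.subset_insert _ _).trans hsub)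
      obtain ⟨M, hM⟩ := Set.mem_iUnion.1 (hsub (Set.mem_insert a s))
      refine ⟨max N M, fun g hg => ?_⟩
      rw [mem_centralizer_iff]
      rintro b (rfl | hb)
      · exact mem_centralizer_iff.1 (hc (le_max_right N M) hg) b hM
      · exact mem_centralizer_iff.1 (hN (hc (le_max_left N M) hg)) b hb
  obtain ⟨N, hN⟩ := h1 X₀ hfin hX₀
  refine ⟨N, fun n hn => le_antisymm (hc hn) ?_⟩
  refine hN.trans ?_
  rw [← hcen]
  exact centralizer_le (Set.subset_iUnion c n)

theorem ascendant_iff {H K : Subgroup G} : IsAscendant H K ↔ Ascendant H K := by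
  constructor
  · rintro ⟨α, f, h0, hα, hs, hl⟩
    exact ⟨α, f, h0, hα, fun β hβ => ⟨(hs β hβ).1,
      (normal_subgroupOf_iff_le_normalizer (hs β hβ).1).1 (hs β hβ).2⟩, hl⟩
  · rintro ⟨α, f, h0, hα, hs, hl⟩
    exact ⟨α, f, h0, hα, fun β hβ => ⟨(hs β hβ).1,
      (normal_subgroupOf_iff_le_normalizer (hs β hβ).1).2 (hs β hβ).2⟩, hl⟩

theorem rightEngel_conj {a : G} (ha : a ∈ RightEngel G) (g : G) :
    g * a * g⁻¹ ∈ RightEngel G := by
  intro x
  obtain ⟨n, hn⟩ := ha (g⁻¹ * x * g)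
  refine ⟨n, ?_⟩
  have h1 := D_iter_conj' g (g⁻¹ * x * g) a n
  have h2 : g * (g⁻¹ * x * g) * g⁻¹ = x := by group
  rw [h2] at h1
  have h3 : (D (g⁻¹ * x * g))^[n] a = 1 := hn
  rw [h3] at h1
  have h4 : (D x)^[n] (g * a * g⁻¹) = 1 := by rw [h1]; group
  exact h4

/-- the inverse of a right Engel element is left Engel -/
theorem leftEngel {b : G} (hb : b ∈ RightEngel G) (u : G) : ∃ n, (D b⁻¹)^[n] u = 1 := by
  have hw : u⁻¹ * b * u ∈ RightEngel G := by
    have := rightEngel_conj hb u⁻¹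
    rwa [inv_inv] at this
  obtain ⟨n, hn⟩ := hw b⁻¹
  have hn' : (D b⁻¹)^[n] (u⁻¹ * b * u) = 1 := hn
  refine ⟨n + 2, ?_⟩
  have h1 : D b⁻¹ u = (u⁻¹ * b * u) * b⁻¹ := by simp only [D]; group
  have h2 : ∀ w : G, D b⁻¹ (w * b⁻¹) = b * D b⁻¹ w * b⁻¹ := by
    intro w
    simp only [D]; group
  have h3 : ∀ (k : ℕ) (z : G), (D b⁻¹)^[k] (b * z * b⁻¹) = b * (D b⁻¹)^[k] z * b⁻¹ := by
    intro k z
    have := D_iter_conj' b b⁻¹ z k
    have h4 : b * b⁻¹ * b⁻¹ = b⁻¹ := by group
    rwa [h4] at this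
  have h5 : (D b⁻¹)^[n + 2] u = b * (D b⁻¹)^[n + 1] (u⁻¹ * b * u) * b⁻¹ := by
    rw [Function.iterate_succ_apply, h1, Function.iterate_succ_apply, h2, h3,
      ← Function.iterate_succ_apply]
  rw [h5, D_iter_stable hn' (Nat.le_succ n)]
  group

theorem rho_subset_rightEngel {a : G} (ha : a ∈ rho G) : a ∈ RightEngel G := by
  intro x
  obtain ⟨α, f, h0, hα, hs, hl⟩ := ascendant_iff.1 (ha x)
  have hmono := chain_mono (fun β hβ => (hs β hβ).1) hl
  have hx : ∀ β ≤ α, x ∈ f β := by
    intro β hβ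
    refine hmono β hβ 0 (by simp) ?_
    rw [h0]
    exact mem_zpowers x
  have key : ∀ γ ≤ α, ∀ b ∈ f γ, ∃ n, (D x)^[n] b = 1 := by
    intro γ
    induction γ using Ordinal.limitRecOn with
    | zero =>
      intro _ b hb
      rw [h0, mem_zpowers_iff] at hb
      obtain ⟨k, rfl⟩ := hb
      refine ⟨1, ?_⟩
      rw [Function.iterate_one]
      simp only [D]
      group
    | add_one γ ih =>
      intro hγ b hb
      have hγα : γ < α := lt_of_lt_of_le (lt_add_one γ) hγ
      have h1 : D x b ∈ f γ := by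
        rw [D_eq']
        exact mul_mem (inv_mem (norm_conj' ((hs γ hγα).2 hb) (hx γ hγα.le))) (hx γ hγα.le)
      obtain ⟨n, hn⟩ := ih hγα.le _ h1
      exact ⟨n + 1, by rw [Function.iterate_succ_apply]; exact hn⟩
    | limit γ hγl ih =>
      intro hγ b hb
      have h1 := hl γ hγ hγl
      rw [← SetLike.mem_coe, h1] at hb
      simp only [Set.mem_iUnion] at hb
      obtain ⟨β, hβ, hb⟩ := hb
      exact ih β hβ (hβ.le.trans hγ) b hb
  have haα : a ∈ f α := by
    rw [hα]
    exact (le_sup_right : normalClosure {a} ≤ _) (subset_normalClosure (Set.mem_singleton a))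
  exact key α le_rfl a haα

theorem rightEngel_subset_rho (h : IsMc G) {a : G} (ha : a ∈ RightEngel G) : a ∈ rho G := by
  have hmc := mc_of_isMc h
  intro x
  rw [ascendant_iff]
  -- the normal closure of `a` is locally nilpotent
  set Y : Set G := Group.conjugatesOfSet {a} with hY
  have hYmem : ∀ t ∈ Y, ∃ g : G, t = g * a * g⁻¹ := by
    intro t ht
    rw [hY, Group.mem_conjugatesOfSet_iff] at ht
    obtain ⟨b, hb, hbt⟩ := ht
    rw [Set.mem_singleton_iff] at hb
    rw [hb, isConj_iff] at hbt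
    obtain ⟨g, hg⟩ := hbt
    exact ⟨g, hg.symm⟩
  set X : Set G := Set.range (fun g : G => g * a⁻¹ * g⁻¹) with hX
  have hXLN : LN (closure X) := by
    refine main hmc ?_ ?_
    · rintro g _ ⟨k, rfl⟩
      exact ⟨g * k, by simp only []; group⟩
    · rintro u _ _ ⟨k, rfl⟩
      obtain ⟨n, hn⟩ := leftEngel (rightEngel_conj ha k) u
      refine ⟨n, ?_⟩
      have h1 : (k * a * k⁻¹)⁻¹ = k * a⁻¹ * k⁻¹ := by group
      rwa [h1] at hn
  have hAX : closure Y ≤ closure X := by
    rw [closure_le]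
    intro t ht
    obtain ⟨g, rfl⟩ := hYmem t ht
    have h1 : g * a * g⁻¹ = (g * a⁻¹ * g⁻¹)⁻¹ := by group
    rw [h1]
    exact inv_mem (subset_closure ⟨g, rfl⟩)
  have hALN : LN (closure Y) := hXLN.mono hAX
  have hAeq : normalClosure {a} = closure Y := rfl
  have hnorm : x ∈ normalizer (closure Y : Set G) := by
    rw [← hAeq, normalizer_eq_top]
    exact mem_top x
  have hins : LN (closure (insert x Y)) := by
    refine LN_insert hALN hnorm ?_
    intro t ht
    obtain ⟨g, rfl⟩ := hYmem t ht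
    exact rightEngel_conj ha g x
  rw [hAeq]
  refine asc_main hmc hALN hnorm ?_
  intro b hb
  exact engel_of_LN hins (subset_closure (Set.mem_insert _ _))
    (closure_mono (Set.subset_insert _ _) hb)

/-- In every `𝔐_c`-group `G` one has `R(G) = ϱ(G)`. -/
theorem result (G : Type u) [Group G] (h : IsMc G) : RightEngel G = rho G :=
  Set.Subset.antisymm (fun _ ha => rightEngel_subset_rho h ha)
    (fun _ ha => rho_subset_rightEngel ha)

end Pool.Agent.Results.MP_b9f959_al.RightEngelMc
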